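import Mathlib

/-!
# The inequality at a vertex

`Φ a b` is an antisymmetric potential on the edges; `x` is the degree minus one.
-/

set_option autoImplicit false

namespace Run7.h773.YT

/-- the potential `Φ a b` for `a < b` -/
def ψ (a b : ℕ) : ℤ :=
  if a = 0 then -6 else if a = 1 then -2 else if a = 2 then 2 * (b : ℤ) - 6
  else (a : ℤ) * (a - 1) * (b - a)

/-- the potential -/
def Φ (a b : ℕ) : ℤ := if a < b then ψ a b else if b < a then -ψ b a else 0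

theorem Φ_anti (a b : ℕ) : Φ a b = -Φ b a := by
  unfold Φ
  rcases lt_trichotomy a b with h | h | h
  · rw [if_pos h, if_neg (by omega), if_pos h]; ring
  · subst h; simp
  · rw [if_neg (by omega), if_pos h, if_pos h]

/-- the weight of a neighbour -/
def W (b y : ℕ) : ℤ := (b : ℤ) * (b - 1) * y - Φ b y

theorem W_cap (b y c : ℕ) (h3 : 3 ≤ c) (hb : b ≤ c) (hc : c = b ∨ c = 3) :
    W b y = W b (min y c) := by
  rcases le_total y c with h | h
  · rw [min_eq_left h]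
  · rw [min_eq_right h]
    rcases eq_or_lt_of_le h with h' | h'
    · rw [h']
    unfold W Φ ψ
    rcases hc with hc | hc
    · subst hc
      rw [if_pos (by omega), if_neg (by omega), if_neg (by omega), if_neg (by omega),
        if_neg (by omega), if_neg (by omega)]
      ring
    · subst hc
      interval_cases b
      · have h1 : 0 < y := by omega
        simp [h1]
      · have h1 : 1 < y := by omega
        simp [h1]
      · have h1 : 2 < y := by omega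
        simp [h1]
      · rw [if_pos (by omega), if_neg (by omega), if_neg (by omega), if_neg (by omega),
          if_neg (by omega), if_neg (by omega)]
        ring

section pairs

variable {ι : Type*} (s : Finset ι)

theorem pair_eq (y : ι → ℕ) [DecidableEq ι] :
    (∑ j ∈ s, (y j : ℤ)) ^ 2 - ∑ j ∈ s, (y j : ℤ) ^ 2
      = ∑ j ∈ s, (y j : ℤ) * ∑ k ∈ s.erase j, (y k : ℤ) := by
  have h : ∀ j ∈ s, (y j : ℤ) * ∑ k ∈ s.erase j, (y k : ℤ)
      = (y j : ℤ) * ∑ k ∈ s, (y k : ℤ) - (y j : ℤ) ^ 2 := by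
    intro j hj
    rw [← Finset.add_sum_erase s (fun k => (y k : ℤ)) hj]
    ring
  rw [Finset.sum_congr rfl h, Finset.sum_sub_distrib, ← Finset.sum_mul]
  ring

theorem pair_mono (y m : ι → ℕ) (h : ∀ j, m j ≤ y j) :
    (∑ j ∈ s, (m j : ℤ)) ^ 2 - ∑ j ∈ s, (m j : ℤ) ^ 2
      ≤ (∑ j ∈ s, (y j : ℤ)) ^ 2 - ∑ j ∈ s, (y j : ℤ) ^ 2 := by
  classical
  rw [pair_eq, pair_eq]
  apply Finset.sum_le_sum
  intro j _
  have h1 : (m j : ℤ) ≤ y j := by exact_mod_cast h j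
  have h2 : ∑ k ∈ s.erase j, (m k : ℤ) ≤ ∑ k ∈ s.erase j, (y k : ℤ) :=
    Finset.sum_le_sum fun k _ => by exact_mod_cast h k
  have h3 : (0 : ℤ) ≤ ∑ k ∈ s.erase j, (m k : ℤ) := Finset.sum_nonneg fun k _ => by positivity
  have h4 : (0 : ℤ) ≤ y j := by positivity
  exact mul_le_mul h1 h2 h3 h4

end pairs

theorem dec1 : ∀ a b : Fin 4, 4 * (W 1 a.1 + W 1 b.1)
    - 4 * (((a.1 : ℤ) + b.1) ^ 2 - ((a.1 : ℤ) ^ 2 + (b.1 : ℤ) ^ 2)) ≤ 0 := by
  decide

theorem dec2 : ∀ a b c : Fin 4, 4 * (W 2 a.1 + W 2 b.1 + W 2 c.1)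
    - 4 * (((a.1 : ℤ) + b.1 + c.1) ^ 2 - ((a.1 : ℤ) ^ 2 + (b.1 : ℤ) ^ 2 + (c.1 : ℤ) ^ 2))
    ≤ -24 := by
  decide

theorem dec3 : ∀ a b c d : Fin 4, 4 * (W 3 a.1 + W 3 b.1 + W 3 c.1 + W 3 d.1)
    - 4 * (((a.1 : ℤ) + b.1 + c.1 + d.1) ^ 2
      - ((a.1 : ℤ) ^ 2 + (b.1 : ℤ) ^ 2 + (c.1 : ℤ) ^ 2 + (d.1 : ℤ) ^ 2))
    ≤ 24 := by
  decide

/-- the inequality for small `b`, with capped values -/
theorem small {ι : Type*} (s : Finset ι) (m : ι → ℕ) (hm : ∀ j, m j ≤ 3) (b : ℕ) (hb : b ≤ 3)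
    (hs : s.card = b + 1) :
    4 * ∑ j ∈ s, W b (m j) - 4 * ((∑ j ∈ s, (m j : ℤ)) ^ 2 - ∑ j ∈ s, (m j : ℤ) ^ 2)
      - 3 * ((b : ℤ) + 1) * b * (b - 1) * (b - 2) ≤ 24 * (1 - (b : ℤ)) := by
  classical
  have hf : ∀ j, ∃ i : Fin 4, m j = i.1 := fun j => ⟨⟨m j, by have := hm j; omega⟩, rfl⟩
  choose g hg using hf
  interval_cases b
  · obtain ⟨j, rfl⟩ := Finset.card_eq_one.1 hs
    simp only [Finset.sum_singleton]
    rw [hg j]
    generalize g j = i
    revert i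
    decide
  · obtain ⟨i, j, hij, rfl⟩ := Finset.card_eq_two.1 hs
    rw [Finset.sum_pair hij, Finset.sum_pair hij, Finset.sum_pair hij]
    rw [hg i, hg j]
    have := dec1 (g i) (g j)
    push_cast at this ⊢
    linarith
  · obtain ⟨i, j, k, hij, hik, hjk, rfl⟩ := Finset.card_eq_three.1 hs
    have hsum : ∀ f : ι → ℤ, ∑ l ∈ {i, j, k}, f l = f i + f j + f k := by
      intro f
      rw [Finset.sum_insert (by simp [hij, hik]), Finset.sum_pair hjk]
      ring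
    rw [hsum, hsum, hsum]
    rw [hg i, hg j, hg k]
    have := dec2 (g i) (g j) (g k)
    push_cast at this ⊢
    linarith
  · obtain ⟨i, t, hit, rfl, ht⟩ := Finset.card_eq_succ.1 hs
    obtain ⟨j, k, l, hjk, hjl, hkl, rfl⟩ := Finset.card_eq_three.1 ht
    have hsum : ∀ f : ι → ℤ, ∑ n ∈ insert i {j, k, l}, f n = f i + f j + f k + f l := by
      intro f
      rw [Finset.sum_insert hit, Finset.sum_insert (by simp [hjk, hjl]), Finset.sum_pair hkl]
      ring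
    rw [hsum, hsum, hsum]
    rw [hg i, hg j, hg k, hg l]
    have := dec3 (g i) (g j) (g k) (g l)
    push_cast at this ⊢
    linarith

theorem W_le (b m : ℕ) (hb : 4 ≤ b) (hm : m ≤ b) :
    W b m ≤ (b : ℤ) * (b - 1) * m + m * (m - 1) * (b - m) := by
  unfold W Φ ψ
  rw [if_neg (by omega)]
  rcases eq_or_lt_of_le hm with h | h
  · subst h
    simp
  rw [if_pos h]
  split_ifs with h0 h1 h2
  · subst h0; simp
  · subst h1; simp
  · subst h2; push_cast; linarith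
  · linarith

theorem poly (b s : ℤ) (hb : 4 ≤ b) :
    s * (5 * b ^ 2 - 4 * b + 4) - 4 * s ^ 2 - 3 * (b + 1) * b * (b - 1) * (b - 2)
      ≤ 24 * (1 - b) := by
  rcases eq_or_lt_of_le hb with h | h
  · subst h
    have : (s - 8) * (s - 9) ≥ 0 := by
      rcases le_or_gt s 8 with h | h
      · nlinarith
      · nlinarith
    nlinarith
  · have h1 : (8 * s - (5 * b ^ 2 - 4 * b + 4)) ^ 2 ≥ 0 := sq_nonneg _
    obtain ⟨t, ht⟩ : ∃ t : ℤ, b = 5 + t := ⟨b - 5, by ring⟩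
    have ht0 : 0 ≤ t := by omega
    have h2 : 0 ≤ 23 * b ^ 4 - 56 * b ^ 3 - 104 * b ^ 2 - 256 * b + 368 := by
      rw [ht]
      have : 23 * (5 + t) ^ 4 - 56 * (5 + t) ^ 3 - 104 * (5 + t) ^ 2 - 256 * (5 + t) + 368
          = 23 * t ^ 4 + 404 * t ^ 3 + 2506 * t ^ 2 + 6004 * t + 3863 := by ring
      rw [this]
      positivity
    nlinarith

/-- the inequality for large `b`, with capped values -/
theorem large {ι : Type*} (s : Finset ι) (m : ι → ℕ) (b : ℕ) (hb : 4 ≤ b) (hm : ∀ j, m j ≤ b) :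
    4 * ∑ j ∈ s, W b (m j) - 4 * ((∑ j ∈ s, (m j : ℤ)) ^ 2 - ∑ j ∈ s, (m j : ℤ) ^ 2)
      - 3 * ((b : ℤ) + 1) * b * (b - 1) * (b - 2) ≤ 24 * (1 - (b : ℤ)) := by
  have h1 : 4 * ∑ j ∈ s, W b (m j) + 4 * ∑ j ∈ s, (m j : ℤ) ^ 2
      ≤ (∑ j ∈ s, (m j : ℤ)) * (5 * (b : ℤ) ^ 2 - 4 * b + 4) := by
    rw [Finset.mul_sum, Finset.mul_sum, ← Finset.sum_add_distrib, Finset.sum_mul]
    apply Finset.sum_le_sum
    intro j _
    have h2 := W_le b (m j) hb (hm j)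
    have h3 : (0 : ℤ) ≤ m j := by positivity
    have h4 : (0 : ℤ) ≤ ((b : ℤ) + 2 - 2 * m j) ^ 2 := sq_nonneg _
    nlinarith [mul_nonneg h3 h4]
  have h5 := poly b (∑ j ∈ s, (m j : ℤ)) (by exact_mod_cast hb)
  linarith

/-- **The inequality at a vertex.** -/
theorem vertex {ι : Type*} (s : Finset ι) (y : ι → ℕ) (b : ℕ) (hs : s.card = b + 1) :
    4 * ((b : ℤ) * (b - 1)) * ∑ j ∈ s, (y j : ℤ)
      - 4 * ((∑ j ∈ s, (y j : ℤ)) ^ 2 - ∑ j ∈ s, (y j : ℤ) ^ 2)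
      - 3 * ((b : ℤ) + 1) * b * (b - 1) * (b - 2)
      ≤ 24 * (1 - (b : ℤ)) + 4 * ∑ j ∈ s, Φ b (y j) := by
  have hW : ∑ j ∈ s, W b (y j)
      = (b : ℤ) * (b - 1) * ∑ j ∈ s, (y j : ℤ) - ∑ j ∈ s, Φ b (y j) := by
    unfold W
    rw [Finset.sum_sub_distrib, ← Finset.mul_sum]
  have key : 4 * ∑ j ∈ s, W b (y j)
      - 4 * ((∑ j ∈ s, (y j : ℤ)) ^ 2 - ∑ j ∈ s, (y j : ℤ) ^ 2)
      - 3 * ((b : ℤ) + 1) * b * (b - 1) * (b - 2) ≤ 24 * (1 - (b : ℤ)) := by
    rcases le_or_gt b 3 with hb | hb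
    · have h1 := small s (fun j => min (y j) 3) (fun j => min_le_right _ _) b hb hs
      have h2 := pair_mono s y (fun j => min (y j) 3) (fun j => min_le_left _ _)
      have h3 : ∑ j ∈ s, W b (y j) = ∑ j ∈ s, W b (min (y j) 3) :=
        Finset.sum_congr rfl fun j _ => W_cap b (y j) 3 le_rfl hb (Or.inr rfl)
      rw [h3]
      linarith
    · have h1 := large s (fun j => min (y j) b) b hb (fun j => min_le_right _ _)
      have h2 := pair_mono s y (fun j => min (y j) b) (fun j => min_le_left _ _)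
      have h3 : ∑ j ∈ s, W b (y j) = ∑ j ∈ s, W b (min (y j) b) :=
        Finset.sum_congr rfl fun j _ => W_cap b (y j) b (by omega) le_rfl (Or.inl rfl)
      rw [h3]
      linarith
  rw [hW] at key
  linarith

end Run7.h773.YT
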