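import Pool.Agent.Q117.YT.Formula
import Pool.Agent.Run7.h773.YT.Ineq

/-!
# `Y ≤ 9 S + P + 6` for all trees, with equality for a tree with twelve vertices
-/

set_option autoImplicit false

namespace Run7.h773.YT

open SimpleGraph Pool.Agent.Q117.YT

theorem sum_Φ {V : Type} [Fintype V] (G : SimpleGraph V) [DecidableRel G.Adj] (x : V → ℕ) :
    ∑ v, ∑ u ∈ G.neighborFinset v, Φ (x v) (x u) = 0 := by
  have h1 : ∀ v, ∑ u ∈ G.neighborFinset v, Φ (x v) (x u)
      = ∑ u, if G.Adj v u then Φ (x v) (x u) else 0 := by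
    intro v
    rw [← Finset.sum_filter]
    apply Finset.sum_congr _ (fun _ _ => rfl)
    ext u
    simp
  have h2 : ∑ v, ∑ u ∈ G.neighborFinset v, Φ (x v) (x u)
      = - ∑ v, ∑ u ∈ G.neighborFinset v, Φ (x v) (x u) := by
    simp_rw [h1]
    conv_lhs => rw [Finset.sum_comm]
    rw [← Finset.sum_neg_distrib]
    apply Finset.sum_congr rfl
    intro v _
    rw [← Finset.sum_neg_distrib]
    apply Finset.sum_congr rfl
    intro u _
    by_cases h : G.Adj v u
    · rw [if_pos h, if_pos h.symm]
      exact Φ_anti _ _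
    · rw [if_neg h, if_neg fun h' => h h'.symm]
      simp
  linarith

theorem main {V : Type} [Fintype V] (G : SimpleGraph V) (hG : G.IsTree) :
    cY G ≤ 9 * cS G + cP G + 6 := by
  classical
  rcases subsingleton_or_nontrivial V with hV | hV
  · have : cY G = 0 := by
      unfold cY
      rw [copyCount_eq_zero]
      rintro ⟨f⟩
      have := f.injective (Subsingleton.elim (f.toHom 0) (f.toHom 1))
      exact absurd this (by decide)
    omega
  have hdeg : ∀ v, 1 ≤ G.degree v := by
    intro v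
    have := hG.1.preconnected.degree_pos_of_nontrivial v
    omega
  set x : V → ℕ := fun v => G.degree v - 1 with hx
  have hav : ∀ v, av G v = (x v : ℤ) := by
    intro v
    unfold av
    rw [hx]
    push_cast [Nat.cast_sub (hdeg v)]
    ring
  have hS := formula_S (G := G)
  have hY := formula_Y (G := G) hG.2
  have hP := formula_P (G := G) hG.2
  have hv : ∀ v, 4 * ((x v : ℤ) * (x v - 1)) * ∑ u ∈ G.neighborFinset v, (x u : ℤ)
      - 4 * ((∑ u ∈ G.neighborFinset v, (x u : ℤ)) ^ 2 - ∑ u ∈ G.neighborFinset v, (x u : ℤ) ^ 2)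
      - 3 * ((x v : ℤ) + 1) * x v * (x v - 1) * (x v - 2)
      ≤ 24 * (1 - (x v : ℤ)) + 4 * ∑ u ∈ G.neighborFinset v, Φ (x v) (x u) := by
    intro v
    apply vertex
    rw [card_neighborFinset_eq_degree]
    have := hdeg v
    change G.degree v = G.degree v - 1 + 1
    omega
  have hsum := Finset.sum_le_sum fun v (_ : v ∈ Finset.univ) => hv v
  rw [Finset.sum_add_distrib, ← Finset.mul_sum, ← Finset.mul_sum, sum_Φ] at hsum
  rw [Finset.sum_sub_distrib, Finset.sum_sub_distrib] at hsum
  have e1 : ∑ v, (1 - (x v : ℤ)) = 2 := by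
    have h1 := G.sum_degrees_eq_twice_card_edges
    have h2 := hG.card_edgeFinset
    have h3 : ∀ v, (1 - (x v : ℤ)) = 2 - (G.degree v : ℤ) := by
      intro v
      have := hav v
      unfold av at this
      linarith
    simp_rw [h3]
    rw [Finset.sum_sub_distrib]
    have h4 : (∑ v, (G.degree v : ℤ)) = 2 * (G.edgeFinset.card : ℤ) := by exact_mod_cast h1
    rw [h4]
    simp only [Finset.sum_const, Finset.card_univ, nsmul_eq_mul]
    have h5 : (G.edgeFinset.card : ℤ) + 1 = Fintype.card V := by exact_mod_cast h2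
    linarith
  rw [e1] at hsum
  have e2 : ∑ v, 4 * ((x v : ℤ) * (x v - 1)) * ∑ u ∈ G.neighborFinset v, (x u : ℤ)
      = 8 * (cY G : ℤ) := by
    have : (8 : ℤ) * cY G = 4 * (2 * (cY G : ℤ)) := by ring
    rw [this, hY, Finset.mul_sum]
    apply Finset.sum_congr rfl
    intro v _
    rw [← Finset.sum_mul, hav]
    simp_rw [hav]
    ring
  have e3 : ∑ v, 4 * ((∑ u ∈ G.neighborFinset v, (x u : ℤ)) ^ 2
      - ∑ u ∈ G.neighborFinset v, (x u : ℤ) ^ 2) = 8 * (cP G : ℤ) := by
    have : (8 : ℤ) * cP G = 4 * (2 * (cP G : ℤ)) := by ring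
    rw [this, hP, Finset.mul_sum]
    simp_rw [hav]
  have e4 : ∑ v, 3 * ((x v : ℤ) + 1) * x v * (x v - 1) * (x v - 2) = 72 * (cS G : ℤ) := by
    have : (72 : ℤ) * cS G = 3 * (24 * (cS G : ℤ)) := by ring
    rw [this, hS, Finset.mul_sum]
    apply Finset.sum_congr rfl
    intro v _
    rw [hav]
    ring
  rw [e2, e3, e4] at hsum
  have : (cY G : ℤ) ≤ 9 * cS G + cP G + 6 := by linarith
  exact_mod_cast this

/-- the parent function of the extremal tree -/
def par : Fin 12 → Fin 12 := ![0, 0, 1, 2, 0, 0, 1, 1, 2, 2, 3, 3]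

/-- the extremal tree: the path `0 1 2 3` with two leaves at each of its vertices -/
def ext : SimpleGraph (Fin 12) := SimpleGraph.fromRel fun i j => j = par i

instance : DecidableRel ext.Adj := by unfold ext; infer_instance

theorem ext_adj : ∀ v : Fin 12, v ≠ 0 → ext.Adj v (par v) := by decide

theorem par_lt : ∀ v : Fin 12, v ≠ 0 → (par v).1 < v.1 := by decide

theorem ext_reach : ∀ (n : ℕ) (v : Fin 12), v.1 ≤ n → ext.Reachable v 0 := by
  intro n
  induction n with
  | zero =>
    intro v hv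
    have : v = 0 := by apply Fin.ext; simpa using hv
    rw [this]
  | succ n ih =>
    intro v hv
    by_cases h : v = 0
    · rw [h]
    · exact (ext_adj v h).reachable.trans (ih _ (by have := par_lt v h; omega))

theorem ext_deg : ∀ v : Fin 12, ext.degree v = ![3, 4, 4, 3, 1, 1, 1, 1, 1, 1, 1, 1] v := by
  decide

theorem ext_isTree : ext.IsTree := by
  rw [isTree_iff_connected_and_card]
  refine ⟨⟨fun u v => (ext_reach 12 u (by omega)).trans (ext_reach 12 v (by omega)).symm⟩, ?_⟩
  have h := ext.sum_degrees_eq_twice_card_edges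
  have h2 : ∑ v, ext.degree v = 22 := by
    simp_rw [ext_deg]
    decide
  rw [h2] at h
  rw [Nat.card_eq_fintype_card, Nat.card_eq_fintype_card, Fintype.card_fin,
    ← SimpleGraph.edgeFinset_card]
  omega

theorem ext_eq : cY ext = 9 * cS ext + cP ext + 6 := by
  have hS := formula_S (G := ext)
  have hY := formula_Y (G := ext) ext_isTree.2
  have hP := formula_P (G := ext) ext_isTree.2
  have hav : ∀ v, av ext v = (![2, 3, 3, 2, 0, 0, 0, 0, 0, 0, 0, 0] : Fin 12 → ℤ) v := by
    intro v
    unfold av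
    rw [ext_deg]
    revert v
    decide
  simp_rw [hav] at hS hY hP
  have h1 : (24 : ℤ) * cS ext = 48 := by rw [hS]; decide
  have h2 : (2 : ℤ) * cY ext = 72 := by rw [hY]; decide
  have h3 : (2 : ℤ) * cP ext = 24 := by rw [hP]; decide
  omega

end Run7.h773.YT
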